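import Pool.Agent.W2helper27.BF.Main

/-!
# Tate's conjecture for higher Chow groups and powers of varieties of ordinary K3 type

Let `k` be an algebraic closure of the field with `p` elements, `X` a smooth projective variety over
`k` which is of ordinary K3 type in degree `2 d` (`IsOrdinaryK3Type`): there is no cohomology of odd
degree, the slopes of Frobenius on `H^(2 j)(X)`, `j ≠ d`, are all equal to `j`, and the slopes on
`H^(2 d)(X)` are `d - 1`, once, and at least `d` otherwise. Examples are the ordinary K3 surfaces, the
ordinary surfaces with `p_g = 1` and `q = 0` (`d = 1`), and the ordinary cubic fourfolds (`d = 2`). Let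
`r` be the number of the Frobenius eigenvalues on `H^(2 d)(X)` which are not the product of `q ^ d` and
a root of unity. Let `Z` be any smooth projective variety and `U` **any smooth variety** (open
varieties are allowed). The variety `U` is given by `D : Regulators W`, that is, by its cohomology `M`
with the Frobenius endomorphism and by the images of the regulators in `H(Y × U) = H(Y) ⊗ M` for the
smooth projective varieties `Y`; these images are stable under pull-backs for the morphisms of
smooth projective varieties and under products with algebraic cycles on `Y`. Let the level of
`Z × U` be at most `lev` (`IsOfLevel`): the slopes of each eigenvalue of Frobenius on the cohomology of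
`Z × U` (and of its conjugates) are in an interval `[m, m + lev]`. By Deligne this is true for
`lev = dim Z + dim U`.

The conjecture of Beilinson, Friedlander and Jannsen for `Y × U` and the twist `j` is
`RegulatorOnto Φ D Y j`: all classes in `H^i(Y × U)(j)`, for all `i`, which are invariant under the
Galois group of some finite field, are in the image of the regulator of `CH^j(Y × U, 2 j - i) ⊗ K`. (The question, for
all varieties over all finite fields, is equivalent to this one, by transfer. The coefficient field
`K` is an algebraic closure of the field of the `l`-adic numbers.)

**Theorem.** Assume the Tate conjecture and semisimplicity for `X` and `X × X` (this is known for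
ordinary K3 surfaces: Nygaard, Zarhin), and let `N = [r / 2] [lev / 2]`.

(1) If the conjecture holds for the varieties `Z × X ^ m × U` with `m ≤ N`, for the twists `≤ j`, then it
holds for all the varieties `Z × X ^ n × U` and the twist `j`.

(2) Let `lev ≤ 1`. If the conjecture holds for `Z × U`, for the twists `≤ j`, then it holds for all the
varieties `Z × X ^ n × U` and the twist `j`.

For example, for `Z` a point and `U` a smooth curve the conjecture for `U` is known, hence by (2) it is
true for `X ^ n × U`, for all ordinary K3 surfaces `X` and all `n`. For all smooth surfaces and
threefolds `U` it is enough to consider the `X ^ m × U` with `m ≤ 10` (`r ≤ 21`).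

The proof. For a large finite field with `q` elements the cohomology of `X` has a basis of
eigenvectors of Frobenius: the eigenvalues `α ∈ T` which are not `q ^ d` times a root of unity are
simple, and the other basis vectors are algebraic classes. Write an invariant class `r` on
`Z × X ^ n × U` as the sum of the `x_I ⊗ w_I`, `x_I` the products of these basis vectors for the words
`I` of length `n`; then `w_I` is an eigenvector of Frobenius on `H(Z × U)` for the eigenvalue
`β = q ^ j / ∏ α_(I i)`. If `I` contains an algebraic class, or two letters `α`, `q ^ (2 d) / α` of `T` (the
product of the two basis vectors is a Tate class on `X × X`), then `x_I ⊗ w_I` is the product of an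
algebraic class and of an invariant class with less factors `X`, and one can use induction.
Otherwise let `c_α` be the multiplicities of the letters. For each `α ∈ T` there is a `p`-adic place
where `α` has the slope `d - 1`, `q ^ (2 d) / α` has the slope `d + 1`, and all other letters have the slope
`d`. At this place and the conjugate one `β` has the slopes `j - d n + c_α` and `j - d n - c_α`. So
`2 c_α ≤ lev` (`level_bound`), for the at most `r / 2` letters of the word, and `n ≤ N`.

For `U` a point this is Zarhin's theorem (Tate classes on the powers of ordinary K3 surfaces).
-/

set_option autoImplicit false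

open CategoryTheory AlgebraicGeometry

universe u v

namespace Pool.Agent.Results.MP_81b968_ag.PowersOfK3Type

open Pool.Agent.H914 Pool.Agent.H914.VarClass Pool.Agent.H914.VarClass.Obj
  Pool.Agent.H914.WeilCohomology Pool.Agent.W534 Pool.Agent.R940 Pool.Agent.N204.GT
  Pool.Agent.W2helper27.K3 Pool.Agent.W2helper27.BF

/-- Reduction of the conjecture of Beilinson, Friedlander and Jannsen for the products
`Z × X ^ n × U` to the case of at most `[r / 2] [lev / 2]` factors `X`, if `X` is of ordinary K3 type in
degree `2 d` with transcendental rank `r` and `Z × U` has the level `lev`. -/
theorem result {k : Type u} [Field k] {𝒱 : VarClass k} {ops : CycleOps 𝒱}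
    {W : WeilCohomology.{u, v} ops} [IsAlgClosed W.K] {p : ℕ} [Fact p.Prime] (Φ : FrobSystem W p)
    (σ : W.K →+* ℂ) (D : Regulators W) (X Z : 𝒱.Obj) (hX : WeilConjectures Φ σ X) (d : ℕ)
    (hK : IsOrdinaryK3Type Φ σ X d) (hT : SemisimpleTate Φ X) (hT2 : SemisimpleTate Φ (X.prod X))
    (lev : ℕ) (hlev : IsOfLevel Φ D Z lev) (j : ℤ) :
    ((∀ m ≤ transcendentalRank Φ σ X d / 2 * (lev / 2), ∀ i ≤ j,
        RegulatorOnto Φ D (withPower Z X m) i) →
      ∀ n, RegulatorOnto Φ D (withPower Z X n) j) ∧
    (lev ≤ 1 → (∀ i ≤ j, RegulatorOnto Φ D Z i) → ∀ n, RegulatorOnto Φ D (withPower Z X n) j) := by
  refine ⟨fun h n => main hX hK hT hT2 hlev h n, fun h1 h n => main hX hK hT hT2 hlev ?_ n⟩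
  intro m hm i hi
  have h0 : lev / 2 = 0 := by omega
  rw [h0, mul_zero] at hm
  obtain rfl : m = 0 := by omega
  exact h i hi

end Pool.Agent.Results.MP_81b968_ag.PowersOfK3Type
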