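import Pool.Agent.W2helper42.TQ.OnMain
import Pool.Agent.W2helper42.TQ.Smooth

/-!
# Surjectivity of the regulators for all smooth varieties and for smooth affine cubics

Let `X` be a separated scheme of finite type over the field with `p` elements which has an affine
bundle `Spec R` over it, locally isomorphic to the product of `X` and affine space of dimension `a`.
By Jouanolou and Thomason all smooth varieties and all quasi-projective schemes are of this type. Then
`X` has a smooth affine hypersurface `C` of the form `y_0 q_0(x) + ... + y_r q_r(x) = 1` over this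
field, where every `q_j` is one of the polynomials `x_a x_b - x_c`, `x_a + x_b - x_c`, `x_a - 1`, such
that for all `i`, `j` the surjectivity of the regulator of `X` in homological degree `i` and twist `j`
is equivalent to that of `C` in degree `i + 2 a + 2 r + 1` and twist `j + a + r`.

The regulator of a scheme over the field with `p ^ b` elements has the same source and the same target
as the regulator of this scheme over the field with `p` elements, so all finite fields are covered.
-/

set_option autoImplicit false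

namespace Pool.Agent.Results.MP_81b968_ag.SmoothCubics

open AlgebraicGeometry CategoryTheory Pool.Agent.W2helper42.TQ

noncomputable section

variable {p : ℕ}

/-- The polynomials `x_a x_b - x_c`, `x_a + x_b - x_c` and `x_a - 1`. -/
def Simple {m : ℕ} (q : MvPolynomial (Fin m) (ZMod p)) : Prop :=
  (∃ a b c, q = MvPolynomial.X a * MvPolynomial.X b - MvPolynomial.X c) ∨
    (∃ a b c, q = MvPolynomial.X a + MvPolynomial.X b - MvPolynomial.X c) ∨
    ∃ a, q = MvPolynomial.X a - 1

/-- The polynomial `y_0 q_0(x) + ... + y_r q_r(x) - 1`. -/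
def cubic {m r : ℕ} (q : Fin (r + 1) → MvPolynomial (Fin m) (ZMod p)) :
    MvPolynomial (Fin (r + 1)) (MvPolynomial (Fin m) (ZMod p)) :=
  ∑ j, MvPolynomial.C (q j) * MvPolynomial.X j - 1

/-- The ring `F_p[x_1, ..., x_m, y_0, ..., y_r] / (y_0 q_0(x) + ... + y_r q_r(x) - 1)`. -/
abbrev Cub {m r : ℕ} (q : Fin (r + 1) → MvPolynomial (Fin m) (ZMod p)) : Type :=
  MvPolynomial (Fin (r + 1)) (MvPolynomial (Fin m) (ZMod p)) ⧸ Ideal.span {cubic q}

theorem cubic_eq {m r : ℕ} (q : Fin (r + 1) → MvPolynomial (Fin m) (ZMod p)) :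
    cubic q = lin q (-1) := by
  unfold cubic lin
  rw [map_neg, map_one, sub_eq_add_neg]

theorem smooth_cub {m r : ℕ} (q : Fin (r + 1) → MvPolynomial (Fin m) (ZMod p)) :
    Algebra.Smooth (ZMod p) (Cub q) := by
  unfold Cub
  rw [cubic_eq]
  exact smooth_lin' q

theorem simple_ne [Fact p.Prime] {m : ℕ} {q : MvPolynomial (Fin m) (ZMod p)} (h : Simple q) :
    q ≠ 0 := by
  rintro rfl
  rcases h with ⟨a, b, c, h⟩ | ⟨a, b, c, h⟩ | ⟨a, h⟩
  · have h1 := congrArg (MvPolynomial.aeval fun _ => (Polynomial.X : Polynomial (ZMod p))) h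
    simp only [map_zero, map_sub, map_mul, MvPolynomial.aeval_X] at h1
    have h2 : (Polynomial.X : Polynomial (ZMod p)) * (Polynomial.X - Polynomial.C 1) = 0 := by
      rw [map_one]
      linear_combination -h1
    rcases mul_eq_zero.1 h2 with h3 | h3
    · exact Polynomial.X_ne_zero h3
    · exact Polynomial.X_sub_C_ne_zero 1 h3
  · have h1 := congrArg (MvPolynomial.aeval fun _ => (1 : ZMod p)) h
    simp only [map_zero, map_sub, map_add, MvPolynomial.aeval_X] at h1
    refine one_ne_zero (α := ZMod p) ?_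
    linear_combination -h1
  · have h1 := congrArg (MvPolynomial.aeval fun _ => (0 : ZMod p)) h
    simp only [map_zero, map_sub, map_one, MvPolynomial.aeval_X] at h1
    refine one_ne_zero (α := ZMod p) ?_
    linear_combination h1

variable {Ω : Type} [Field Ω] [CharZero Ω] {T : Theory Ω}

omit [CharZero Ω] in
theorem onto_iso (hT : IsTheoryB p T) {X Y : Scheme.{0}} (hX : FT p X) (e : X ≅ Y) {i j : ℤ}
    (h : T.Onto X i j) : T.Onto Y i j := by
  refine (hT.iso X Y hX e).onto ?_
  rwa [show i + 2 * (0 : ℤ) = i by ring, show j + (0 : ℤ) = j by ring]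

theorem self_bundle {R : Type} [CommRing R] (hR : Fg p R) :
    ∃ (S : Type) (_ : CommRing S), Fg p S ∧ IsAffBundle (Sp S) (Sp R) 0 :=
  ⟨MvPolynomial (Fin 0) R, inferInstance, fg_mv hR _, isAffBundle_space R 0⟩

variable [Fact p.Prime]

theorem affine (hT : IsTheoryB p T) (hv : T.Vanishing p) (R : Type) [CommRing R] (hR : Fg p R) :
    ∃ (m r : ℕ) (q : Fin (r + 1) → MvPolynomial (Fin m) (ZMod p)), (∀ j, Simple (q j)) ∧
      ∀ i j : ℤ, T.Onto (Sp R) i j ↔ T.Onto (Sp (Cub q)) (i + 2 * r + 1) (j + r) := by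
  obtain ⟨m, r, q, hq, ⟨e⟩⟩ := shape_pos p R hR
  refine ⟨m, r, q, hq, fun i j => ?_⟩
  have h1 := onto_point hT hv q ⟨0, simple_ne (hq 0)⟩ i j
  let E : Sp R ≅ Sp (MvPolynomial (Fin m) (ZMod p) ⧸ Ideal.span (Set.range q)) :=
    Scheme.Spec.mapIso (e.toCommRingCatIso.symm).op
  have h2 : Fg p (MvPolynomial (Fin m) (ZMod p) ⧸ Ideal.span (Set.range q)) := fg_equiv hR e
  have h3 : T.Onto (Sp R) i j ↔
      T.Onto (Sp (MvPolynomial (Fin m) (ZMod p) ⧸ Ideal.span (Set.range q))) i j :=
    ⟨fun h => onto_iso hT (ft_sp0 hR) E h, fun h => onto_iso hT (ft_sp0 h2) E.symm h⟩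
  rw [h3, h1]
  unfold Cub
  rw [cubic_eq]

/-- Let `T` be motivic and `ℓ`-adic homology of the separated schemes of finite type over the field
with `p` elements. Every such scheme `X` with an affine bundle `Spec R` of rank `a` over it has a
smooth affine cubic hypersurface `Spec (Cub q)`, with `Simple` polynomials `q_j`, such that for all
`i`, `j` the surjectivity of the regulator for `X` in degree `i` and twist `j` is equivalent to the
surjectivity for `Spec (Cub q)` in degree `i + 2 a + 2 r + 1` and twist `j + a + r`. And the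
surjectivity holds for all such schemes `X` and all `i`, `j` if and only if it holds for these
hypersurfaces. -/
theorem result (p : ℕ) [Fact p.Prime] (Ω : Type) [Field Ω] [CharZero Ω] (T : Theory Ω)
    (hT : IsTheoryB p T) (hv : T.Vanishing p) :
    (∀ (X : Scheme.{0}) (R : Type) [CommRing R] (a : ℕ), FT p X → Fg p R →
      IsAffBundle (Sp R) X a →
      ∃ (m r : ℕ) (q : Fin (r + 1) → MvPolynomial (Fin m) (ZMod p)), (∀ j, Simple (q j)) ∧
        Algebra.Smooth (ZMod p) (Cub q) ∧ ∀ i j : ℤ, T.Onto X i j ↔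
          T.Onto (Sp (Cub q)) (i + 2 * a + 2 * r + 1) (j + a + r)) ∧
    ((∀ (X : Scheme.{0}) (R : Type) [CommRing R] (a : ℕ), FT p X → Fg p R →
      IsAffBundle (Sp R) X a → ∀ i j : ℤ, T.Onto X i j) ↔
      ∀ (m r : ℕ) (q : Fin (r + 1) → MvPolynomial (Fin m) (ZMod p)), (∀ j, Simple (q j)) →
        ∀ i j : ℤ, T.Onto (Sp (Cub q)) i j) := by
  have key : ∀ (X : Scheme.{0}) (R : Type) [CommRing R] (a : ℕ), FT p X → Fg p R →
      IsAffBundle (Sp R) X a →
      ∃ (m r : ℕ) (q : Fin (r + 1) → MvPolynomial (Fin m) (ZMod p)), (∀ j, Simple (q j)) ∧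
        Algebra.Smooth (ZMod p) (Cub q) ∧ ∀ i j : ℤ, T.Onto X i j ↔
          T.Onto (Sp (Cub q)) (i + 2 * a + 2 * r + 1) (j + a + r) := by
    intro X R _ a hX hR hb
    obtain ⟨m, r, q, hq, h⟩ := affine hT hv R hR
    refine ⟨m, r, q, hq, smooth_cub q, fun i j => ?_⟩
    rw [bundle_onto hT hb hX i j, h]
  have hZ : Fg p (ZMod p) := ⟨RingHom.id _, RingHom.FiniteType.id _⟩
  refine ⟨key, fun h m r q _ i j => ?_, fun h X R _ a hX hR hb i j => ?_⟩
  · have hC : Fg p (Cub q) := fg_quot (fg_mv (fg_mv hZ _) _) _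
    obtain ⟨S, _, hS, hb⟩ := self_bundle hC
    exact h (Sp (Cub q)) S 0 (ft_sp0 hC) hS hb i j
  · obtain ⟨m, r, q, hq, _, hE⟩ := key X R a hX hR hb
    exact (hE i j).2 (h m r q hq _ _)

end

end Pool.Agent.Results.MP_81b968_ag.SmoothCubics
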